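import Mathlib
import Pool.Agent.Run7.h961.Main

set_option autoImplicit false
open MeasureTheory ProbabilityTheory

namespace Pool.Agent.Results.MP_0cad2f_co.BallLower

/-- For all admissible `n ≥ 2`, `d ≥ 2`, `σ` with `n ≥ σ ^ (-18 d)` there are centres in the unit
ball for which the expected diameter of the edge graph is at least
`(1 / 20) * √(d * √(log n) / (σ * log (1 / σ)))`. -/
theorem result (n d : ℕ) (hn : 2 ≤ n) (hd : 2 ≤ d) (σ : ℝ) (hσ : 0 < σ)
    (hσ1 : σ ≤ 1 / (6 * Real.sqrt ((d : ℝ) * Real.log (n : ℝ))))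
    (hn2 : 18 * (d : ℝ) * Real.log (1 / σ) ≤ Real.log (n : ℝ)) :
    ∃ c : Fin n → Fin d → ℝ, (∀ i, ∑ j, (c i j) ^ 2 ≤ 1) ∧
      ENNReal.ofReal (Real.sqrt ((d : ℝ) * Real.sqrt (Real.log (n : ℝ)) /
          (σ * Real.log (1 / σ))) / 20) ≤
        ∫⁻ a : Fin n → Fin d → ℝ,
            ((SimpleGraph.fromRel
                (fun (u v : {x : Fin d → ℝ //
                    (∀ i, ∑ j, a i j * x j ≤ 1) ∧
                    Submodule.span ℝ (a '' {i | ∑ j, a i j * x j = 1}) = ⊤}) =>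
                  Module.finrank ℝ
                    (Submodule.span ℝ
                      (a '' {i | ∑ j, a i j * u.1 j = 1 ∧ ∑ j, a i j * v.1 j = 1}))
                    = d - 1)).ediam : ENNReal)
          ∂(Measure.pi (fun i : Fin n =>
              Measure.pi (fun j : Fin d => gaussianReal (c i j) (Real.toNNReal (σ ^ 2))))) :=
  ⟨fun i => Pool.Agent.Run7.h961.cen d ⌈1 / (4 * σ ^ 2)⌉₊ i,
    fun i => Pool.Agent.Run7.h961.cen_le d _ i,
    Pool.Agent.Run7.h961.main_bound hn hd hσ hσ1 hn2⟩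

end Pool.Agent.Results.MP_0cad2f_co.BallLower
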